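import Mathlib
import Pool.Agent.Q174.PolyDisc

/-!
# MP_c8f9b2_an, Q2: the volume function is finite everywhere and discontinuous

`U a` is the radial solution of `Δ^m u = -e^u` in `ℝ^{2m}` with data `a ∈ ℝ^m`.  For every `m ≥ 3`
the volume function `a ↦ V(U a)` is finite everywhere and is not continuous on `ℝ^m`.
-/

set_option autoImplicit false

namespace Pool.Agent.Results.MP_c8f9b2_an.VolumeDiscontinuous

open Pool.Agent.Q174.Poly

theorem result (m : ℕ) (hm : 3 ≤ m) (U : (Fin m → ℝ) → ℝ → ℝ) (hU : ∀ a, IsSolution m a (U a)) :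
    (∀ a, V m (U a) < ⊤) ∧ ∃ a, ¬ ContinuousAt (fun a => (V m (U a)).toReal) a := by
  refine ⟨fun a => V_finite (by omega) (hU a), ?_⟩
  have h := not_continuous hm U hU
  rw [continuous_iff_continuousAt] at h
  push Not at h
  exact h

end Pool.Agent.Results.MP_c8f9b2_an.VolumeDiscontinuous
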