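import Mathlib
import Pool.Agent.Q174.PolyFin

/-!
# MP_c8f9b2_an, Q1: radial solutions of `Δ^m u = -e^u` in `ℝ^{2m}` have finite volume

`IsSolution m a u` : `u` is the radial solution with data `a ∈ ℝ^m`;
`V m u = ∫_{ℝ^{2m}} e^{u(|x|)} dx`.  The volume is finite for every `m ≥ 3` and every `a ∈ ℝ^m`.
-/

set_option autoImplicit false

namespace Pool.Agent.Results.MP_c8f9b2_an.VolumeFinite

open Pool.Agent.Q174.Poly

theorem result (m : ℕ) (hm : 3 ≤ m) (a : Fin m → ℝ) (u : ℝ → ℝ) (hu : IsSolution m a u) :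
    V m u < ⊤ :=
  V_finite (by omega) hu

end Pool.Agent.Results.MP_c8f9b2_an.VolumeFinite
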